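import Pool.Agent.V5helper57.WZ.Stm

set_option autoImplicit false

open Matrix

namespace Pool.Agent.V5helper77.WZ

theorem t_ALF : Pool.Agent.V5helper57.WZ.S_ALF := by
  intro hTRR K _ u A b hu hb hdet h13 T hT hR
  obtain ⟨α, β, γ, δ, -, -, -, -, e1, e2, e3, e4, e5, e6, e7, e8, e9, e10, e11, e12⟩ := hTRR K u A T hT hR
  have hA : ∀ i j, A i j = b i j * u i := fun i j => by rw [hb i j, div_mul_cancel₀ _ (hu i)]
  have hu0 := hu 0
  have hu1 := hu 1
  have hu2 := hu 2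
  have hu3 := hu 3
  have f1 : b 0 2 * δ + b 0 3 * γ = (T 0 * T 1).trace := by
    apply mul_left_cancel₀ hu0; rw [← e1, hA 0 2, hA 0 3]; ring
  have f2 : -(b 1 2 * δ + b 1 3 * γ) = (T 0 * T 1).trace := by
    apply mul_left_cancel₀ hu1; rw [← e2, hA 1 2, hA 1 3]; ring
  have f3 : -(b 0 1 * δ) + b 0 3 * β = (T 0 * T 2).trace := by
    apply mul_left_cancel₀ hu0; rw [← e3, hA 0 1, hA 0 3]; ring
  have f4 : b 2 1 * δ - b 2 3 * β = (T 0 * T 2).trace := by
    apply mul_left_cancel₀ hu2; rw [← e4, hA 2 1, hA 2 3]; ring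
  have f5 : -(b 0 1 * γ) - b 0 2 * β = (T 0 * T 3).trace := by
    apply mul_left_cancel₀ hu0; rw [← e5, hA 0 1, hA 0 2]; ring
  have f6 : b 3 1 * γ + b 3 2 * β = (T 0 * T 3).trace := by
    apply mul_left_cancel₀ hu3; rw [← e6, hA 3 1, hA 3 2]; ring
  have f7 : b 1 0 * δ + b 1 3 * α = (T 1 * T 2).trace := by
    apply mul_left_cancel₀ hu1; rw [← e7, hA 1 0, hA 1 3]; ring
  have f8 : -(b 2 0 * δ) - b 2 3 * α = (T 1 * T 2).trace := by
    apply mul_left_cancel₀ hu2; rw [← e8, hA 2 0, hA 2 3]; ring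
  have f9 : b 1 0 * γ - b 1 2 * α = (T 1 * T 3).trace := by
    apply mul_left_cancel₀ hu1; rw [← e9, hA 1 0, hA 1 2]; ring
  have f11 : b 2 0 * β + b 2 1 * α = (T 2 * T 3).trace := by
    apply mul_left_cancel₀ hu2; rw [← e11, hA 2 0, hA 2 1]; ring
  -- the linear system
  have g1 : (b 0 2 + b 1 2) * δ + (b 0 3 + b 1 3) * γ = 0 := by linear_combination f1 - f2
  have g2 : (b 0 1 + b 2 1) * δ - (b 0 3 + b 2 3) * β = 0 := by linear_combination f4 - f3
  have g3 : (b 0 1 + b 3 1) * γ + (b 0 2 + b 3 2) * β = 0 := by linear_combination f6 - f5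
  have hD : (b 0 2 + b 1 2) * (b 0 3 + b 2 3) * (b 0 1 + b 3 1) - (b 0 3 + b 1 3) * (b 0 1 + b 2 1) * (b 0 2 + b 3 2) ≠ 0 :=
    sub_ne_zero.mpr hdet
  have hδ : δ = 0 := by
    have : ((b 0 2 + b 1 2) * (b 0 3 + b 2 3) * (b 0 1 + b 3 1) - (b 0 3 + b 1 3) * (b 0 1 + b 2 1) * (b 0 2 + b 3 2)) * δ = 0 := by
      linear_combination (b 0 3 + b 2 3) * (b 0 1 + b 3 1) * g1 - (b 0 3 + b 1 3) * (b 0 2 + b 3 2) * g2 - (b 0 3 + b 1 3) * (b 0 3 + b 2 3) * g3
    exact (mul_eq_zero.mp this).resolve_left hD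
  have hγ : γ = 0 := by
    have : ((b 0 2 + b 1 2) * (b 0 3 + b 2 3) * (b 0 1 + b 3 1) - (b 0 3 + b 1 3) * (b 0 1 + b 2 1) * (b 0 2 + b 3 2)) * γ = 0 := by
      linear_combination (b 0 2 + b 1 2) * (b 0 3 + b 2 3) * g3 - (b 0 1 + b 2 1) * (b 0 2 + b 3 2) * g1 + (b 0 2 + b 1 2) * (b 0 2 + b 3 2) * g2
    exact (mul_eq_zero.mp this).resolve_left hD
  have hβ : β = 0 := by
    have : ((b 0 2 + b 1 2) * (b 0 3 + b 2 3) * (b 0 1 + b 3 1) - (b 0 3 + b 1 3) * (b 0 1 + b 2 1) * (b 0 2 + b 3 2)) * β = 0 := by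
      linear_combination (b 0 1 + b 2 1) * (b 0 1 + b 3 1) * g1 - (b 0 2 + b 1 2) * (b 0 1 + b 3 1) * g2 - (b 0 3 + b 1 3) * (b 0 1 + b 2 1) * g3
    exact (mul_eq_zero.mp this).resolve_left hD
  subst hδ hγ hβ
  have hα : α = 0 := by
    have : (b 1 3 + b 2 3) * α = 0 := by linear_combination f7 - f8
    exact (mul_eq_zero.mp this).resolve_left h13
  subst hα
  have t01 : (T 0 * T 1).trace = 0 := by rw [← f1]; ring
  have t02 : (T 0 * T 2).trace = 0 := by rw [← f3]; ring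
  have t03 : (T 0 * T 3).trace = 0 := by rw [← f5]; ring
  have t12 : (T 1 * T 2).trace = 0 := by rw [← f7]; ring
  have t13 : (T 1 * T 3).trace = 0 := by rw [← f9]; ring
  have t23 : (T 2 * T 3).trace = 0 := by rw [← f11]; ring
  have td : ∀ i, (T i * T i).trace = 0 := fun i => by rw [hT i, Matrix.trace_zero]
  intro i j
  fin_cases i <;> fin_cases j
  · exact td 0
  · exact t01
  · exact t02
  · exact t03
  · rw [Matrix.trace_mul_comm]; exact t01
  · exact td 1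
  · exact t12
  · exact t13
  · rw [Matrix.trace_mul_comm]; exact t02
  · rw [Matrix.trace_mul_comm]; exact t12
  · exact td 2
  · exact t23
  · rw [Matrix.trace_mul_comm]; exact t03
  · rw [Matrix.trace_mul_comm]; exact t13
  · rw [Matrix.trace_mul_comm]; exact t23
  · exact td 3

end Pool.Agent.V5helper77.WZ
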