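import Pool.Agent.V5helper57.WZ.Stm

set_option autoImplicit false

namespace Pool.Agent.V5helper77.WZ

open Finset

theorem step {α β : Type} [Fintype α] [Fintype β] (P : α → Prop) (Q : α → β → Prop) (m n : ℕ)
    {i1 : DecidablePred P} {i2 : ∀ a, DecidablePred (Q a)} {i3 : DecidablePred (fun z : α × β => P z.1 ∧ Q z.1 z.2)}
    (hm : m ≤ (@Finset.filter _ P i1 univ).card) (hn : ∀ a, P a → n ≤ (@Finset.filter _ (Q a) (i2 a) univ).card) :
    m * n ≤ (@Finset.filter _ (fun z : α × β => P z.1 ∧ Q z.1 z.2) i3 univ).card := by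
  have h1 : (@Finset.filter _ (fun z : α × β => P z.1 ∧ Q z.1 z.2) i3 univ).card =
      ∑ a ∈ univ.filter P, (univ.filter (Q a)).card := by
    rw [Finset.card_filter, Fintype.sum_prod_type, Finset.sum_filter]
    refine Finset.sum_congr rfl fun a _ => ?_
    by_cases h : P a
    · rw [if_pos h, Finset.card_filter]
      refine Finset.sum_congr rfl fun b _ => ?_
      by_cases h' : Q a b
      · rw [if_pos h', if_pos ⟨h, h'⟩]
      · rw [if_neg h', if_neg (fun h'' => h' h''.2)]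
    · rw [if_neg h]
      refine Finset.sum_eq_zero fun b _ => ?_
      rw [if_neg (fun h'' => h h''.1)]
  rw [h1]
  calc m * n ≤ (univ.filter P).card * n := Nat.mul_le_mul_right _ hm
    _ = ∑ a ∈ univ.filter P, n := by rw [Finset.sum_const, smul_eq_mul]
    _ ≤ _ := Finset.sum_le_sum fun a ha => hn a (Finset.mem_filter.mp ha).2

theorem avoid (p : ℕ) [Fact p.Prime] (S : Finset (ZMod p)) (k : ℕ) (h : S.card ≤ k)
    {i1 : DecidablePred (fun x : ZMod p => x ∉ S)} :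
    p - k ≤ (@Finset.filter _ (fun x : ZMod p => x ∉ S) i1 univ).card := by
  have h1 : (univ.filter (fun x : ZMod p => x ∉ S)) = Sᶜ := by
    ext x; simp
  rw [h1, Finset.card_compl, ZMod.card]
  omega

/-- the conditions hold for the chosen elements -/
theorem conds {K : Type} [Field K] (u0 u1 u2 A01 A02 A12 A21 s0 w1 w2 w3 s1 s2 s3 : K) (hu0 : u0 ≠ 0) (hu1 : u1 ≠ 0) (hu2 : u2 ≠ 0)
    (hA01 : A01 ≠ 0) (hA02 : A02 ≠ 0) (hc : A01 / u0 + A21 / u2 ≠ 0) (h1 : s0 ≠ 0) (h3 : w1 ≠ 0) (h41 : w2 ≠ 0)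
    (h42 : w2 ≠ w1 * A12 / A02) (h43 : w2 ≠ -(w1 * u1 / u0)) (h51 : w3 ≠ 0) (h52 : w3 ≠ w1 * A21 / A01)
    (h53 : w3 ≠ -(w2 * u2 / u1)) (h6 : s1 ≠ 0) (h7 : s2 ≠ 0) (h81 : s3 ≠ A02 * s2 / A01)
    (h82 : s3 ≠ s0 * (((A02 / u0 + A12 / u1) * (w1 / u0 + w3 / u2) * (A01 / u0 + s2 / s0)) /
          ((w1 / u0 + w2 / u1) * (A01 / u0 + A21 / u2)) - A02 / u0)) :
    s0 ≠ 0 ∧ w1 ≠ 0 ∧ w2 ≠ 0 ∧ w3 ≠ 0 ∧ s1 ≠ 0 ∧ s2 ≠ 0 ∧
      A02 * w2 ≠ w1 * A12 ∧ A01 * w3 ≠ w1 * A21 ∧ A01 * s3 ≠ A02 * s2 ∧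
      (A02 / u0 + A12 / u1) * (w1 / u0 + w3 / u2) * (A01 / u0 + s2 / s0) ≠
        (w1 / u0 + w2 / u1) * (A01 / u0 + A21 / u2) * (A02 / u0 + s3 / s0) ∧
      w2 / u1 + w3 / u2 ≠ 0 := by
  have c1 : w1 / u0 + w2 / u1 ≠ 0 := by
    intro h
    apply h43
    rw [← sub_eq_zero]
    have : w2 - -(w1 * u1 / u0) = u1 * (w1 / u0 + w2 / u1) := by field_simp; ring
    rw [this, h, mul_zero]
  refine ⟨h1, h3, h41, h51, h6, h7, ?_, ?_, ?_, ?_, ?_⟩
  · intro h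
    apply h42
    rw [eq_div_iff hA02]
    linear_combination h
  · intro h
    apply h52
    rw [eq_div_iff hA01]
    linear_combination h
  · intro h
    apply h81
    rw [eq_div_iff hA01]
    linear_combination h
  · intro hL
    apply h82
    have hcc := mul_ne_zero c1 hc
    rw [hL, mul_div_cancel_left₀ _ hcc, add_sub_cancel_left, mul_div_cancel₀ _ h1]
  · intro h
    apply h53
    rw [← sub_eq_zero]
    have : w3 - -(w2 * u2 / u1) = u2 * (w2 / u1 + w3 / u2) := by field_simp; ring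
    rw [this, h, mul_zero]

section
variable (p : ℕ) [Fact p.Prime] (u0 u1 u2 A01 A02 A12 A21 : ZMod p)

def Q7 (s0 w1 w2 w3 s2 s3 : ZMod p) : Prop := s3 ∉ ({A02 * s2 / A01,
  s0 * (((A02 / u0 + A12 / u1) * (w1 / u0 + w3 / u2) * (A01 / u0 + s2 / s0)) /
          ((w1 / u0 + w2 / u1) * (A01 / u0 + A21 / u2)) - A02 / u0)} : Finset (ZMod p))

def Q6 (s0 w1 w2 w3 : ZMod p) (z : ZMod p × ZMod p) : Prop :=
  z.1 ∉ ({0} : Finset (ZMod p)) ∧ Q7 p u0 u1 u2 A01 A02 A12 A21 s0 w1 w2 w3 z.1 z.2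

def Q5 (s0 w1 w2 w3 : ZMod p) (z : ZMod p × ZMod p × ZMod p) : Prop :=
  z.1 ∉ ({0} : Finset (ZMod p)) ∧ Q6 p u0 u1 u2 A01 A02 A12 A21 s0 w1 w2 w3 z.2

def Q4 (s0 w1 w2 : ZMod p) (z : ZMod p × ZMod p × ZMod p × ZMod p) : Prop :=
  z.1 ∉ ({0, w1 * A21 / A01, -(w2 * u2 / u1)} : Finset (ZMod p)) ∧ Q5 p u0 u1 u2 A01 A02 A12 A21 s0 w1 w2 z.1 z.2

def Q3 (s0 w1 : ZMod p) (z : ZMod p × ZMod p × ZMod p × ZMod p × ZMod p) : Prop :=
  z.1 ∉ ({0, w1 * A12 / A02, -(w1 * u1 / u0)} : Finset (ZMod p)) ∧ Q4 p u0 u1 u2 A01 A02 A12 A21 s0 w1 z.1 z.2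

def Q2 (s0 : ZMod p) (z : ZMod p × ZMod p × ZMod p × ZMod p × ZMod p × ZMod p) : Prop :=
  z.1 ∉ ({0} : Finset (ZMod p)) ∧ Q3 p u0 u1 u2 A01 A02 A12 A21 s0 z.1 z.2

def Q1 (s0 : ZMod p) (z : ZMod p × ZMod p × ZMod p × ZMod p × ZMod p × ZMod p × ZMod p) : Prop :=
  z.1 ∉ (∅ : Finset (ZMod p)) ∧ Q2 p u0 u1 u2 A01 A02 A12 A21 s0 z.2

def Q0 (z : ZMod p × ZMod p × ZMod p × ZMod p × ZMod p × ZMod p × ZMod p × ZMod p) : Prop :=
  z.1 ∉ ({0} : Finset (ZMod p)) ∧ Q1 p u0 u1 u2 A01 A02 A12 A21 z.1 z.2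

open Classical in
theorem count_Q0 : (p - 1) * (p * ((p - 1) * ((p - 3) * ((p - 3) * ((p - 1) * ((p - 1) * (p - 2))))))) ≤
    (univ.filter (Q0 p u0 u1 u2 A01 A02 A12 A21)).card := by
  refine step (fun s0 : ZMod p => s0 ∉ ({0} : Finset (ZMod p))) (fun s0 z => Q1 p u0 u1 u2 A01 A02 A12 A21 s0 z) _ _
    (i1 := fun _ => Classical.propDecidable _) (i2 := fun _ _ => Classical.propDecidable _) (avoid p {0} 1 (by simp)) (fun s0 _ => ?_)
  refine step (fun w0 : ZMod p => w0 ∉ (∅ : Finset (ZMod p))) (fun w0 z => Q2 p u0 u1 u2 A01 A02 A12 A21 s0 z) _ _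
    (i1 := fun _ => Classical.propDecidable _) (i2 := fun _ _ => Classical.propDecidable _) (avoid p ∅ 0 (by simp)) (fun w0 _ => ?_)
  refine step (fun w1 : ZMod p => w1 ∉ ({0} : Finset (ZMod p))) (fun w1 z => Q3 p u0 u1 u2 A01 A02 A12 A21 s0 w1 z) _ _
    (i1 := fun _ => Classical.propDecidable _) (i2 := fun _ _ => Classical.propDecidable _) (avoid p {0} 1 (by simp)) (fun w1 _ => ?_)
  refine step (fun w2 : ZMod p => w2 ∉ ({0, w1 * A12 / A02, -(w1 * u1 / u0)} : Finset (ZMod p)))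
    (fun w2 z => Q4 p u0 u1 u2 A01 A02 A12 A21 s0 w1 w2 z) _ _
    (i1 := fun _ => Classical.propDecidable _) (i2 := fun _ _ => Classical.propDecidable _)
    (avoid p _ 3 Finset.card_le_three) (fun w2 _ => ?_)
  refine step (fun w3 : ZMod p => w3 ∉ ({0, w1 * A21 / A01, -(w2 * u2 / u1)} : Finset (ZMod p)))
    (fun w3 z => Q5 p u0 u1 u2 A01 A02 A12 A21 s0 w1 w2 w3 z) _ _
    (i1 := fun _ => Classical.propDecidable _) (i2 := fun _ _ => Classical.propDecidable _)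
    (avoid p _ 3 Finset.card_le_three) (fun w3 _ => ?_)
  refine step (fun s1 : ZMod p => s1 ∉ ({0} : Finset (ZMod p))) (fun s1 z => Q6 p u0 u1 u2 A01 A02 A12 A21 s0 w1 w2 w3 z) _ _
    (i1 := fun _ => Classical.propDecidable _) (i2 := fun _ _ => Classical.propDecidable _) (avoid p {0} 1 (by simp)) (fun s1 _ => ?_)
  refine step (fun s2 : ZMod p => s2 ∉ ({0} : Finset (ZMod p))) (fun s2 z => Q7 p u0 u1 u2 A01 A02 A12 A21 s0 w1 w2 w3 s2 z) _ _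
    (i1 := fun _ => Classical.propDecidable _) (i2 := fun _ _ => Classical.propDecidable _) (avoid p {0} 1 (by simp)) (fun s2 _ => ?_)
  exact avoid p _ 2 Finset.card_le_two

end

theorem t_CQ3 : Pool.Agent.V5helper57.WZ.S_CQ3 := by
  classical
  intro p _ hp u0 u1 u2 A01 A02 A12 A21 hu0 hu1 hu2 hA01 hA02 hA12 hc
  refine (count_Q0 p u0 u1 u2 A01 A02 A12 A21).trans ?_
  refine Finset.card_le_card_of_injOn
    (fun z => ((![z.2.1, z.2.2.1, z.2.2.2.1, z.2.2.2.2.1] : Fin 4 → ZMod p),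
      (![z.1, z.2.2.2.2.2.1, z.2.2.2.2.2.2.1, z.2.2.2.2.2.2.2] : Fin 4 → ZMod p))) ?_ ?_
  · rintro ⟨s0, w0, w1, w2, w3, s1, s2, s3⟩ hz
    simp only [Finset.coe_filter, Finset.mem_univ, true_and, Set.mem_ofPred_eq] at hz
    obtain ⟨h1, -, h3, h4, h5, h6, h7, h8⟩ := hz
    simp only [Q7, Finset.mem_insert, Finset.mem_singleton, not_or] at h1 h3 h4 h5 h6 h7 h8
    obtain ⟨h41, h42, h43⟩ := h4
    obtain ⟨h51, h52, h53⟩ := h5
    obtain ⟨h81, h82⟩ := h8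
    simp only [Finset.coe_filter, Finset.mem_univ, true_and, Set.mem_ofPred_eq]
    exact conds u0 u1 u2 A01 A02 A12 A21 s0 w1 w2 w3 s1 s2 s3 hu0 hu1 hu2 hA01 hA02 hc h1 h3 h41 h42 h43 h51 h52 h53 h6 h7
      h81 h82
  · rintro ⟨s0, w0, w1, w2, w3, s1, s2, s3⟩ - ⟨s0', w0', w1', w2', w3', s1', s2', s3'⟩ - h
    simp only [Prod.mk.injEq] at h
    obtain ⟨ha, hb⟩ := h
    have a0 := congrFun ha 0
    have a1 := congrFun ha 1
    have a2 := congrFun ha 2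
    have a3 := congrFun ha 3
    have b0 := congrFun hb 0
    have b1 := congrFun hb 1
    have b2 := congrFun hb 2
    have b3 := congrFun hb 3
    change w0 = w0' at a0
    change w1 = w1' at a1
    change w2 = w2' at a2
    change w3 = w3' at a3
    change s0 = s0' at b0
    change s1 = s1' at b1
    change s2 = s2' at b2
    change s3 = s3' at b3
    subst a0 a1 a2 a3 b0 b1 b2 b3
    rfl

end Pool.Agent.V5helper77.WZ
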